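import Pool.Agent.H61.CMC.TargetsE1
import Pool.Agent.H89.CMC.Targets2

/-!
# Bridges from the part E1 to the part E (stage 2)
-/

set_option autoImplicit false

open MeasureTheory Set Filter NumberField NumberField.InfinitePlace Pool.Agent.H65.CM4
  Pool.Agent.H65.CMC Pool.Agent.H61.CMC
open scoped Real

namespace Pool.Agent.H61.CMC

/-- the kernel bound with any decay exponent -/
theorem br_KCBn (h : T_KBU) (k : Type) [Field k] [NumberField k] :
    ∀ (B : ℕ) (κ : ℝ), 0 < κ → κ ≤ 1 / 8 → ∃ (C : ℝ) (j : ℕ), 0 ≤ C ∧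
      ∀ (m : Pl k → ℤ) (s r : ℂ), |s.re - 1 / 2| ≤ κ → 0 < r.re →
        10 * Pool.Agent.H89.CMC.Tm m s * |r.im| ≤ r.re →
        ‖Km m s r‖ ≤ C * Pool.Agent.H89.CMC.hm j m s * r.re ^ (-(1 / 2 + 2 * κ)) *
          (1 + r.re) ^ (-(B : ℝ)) := by
  intro B κ hκ hκ8
  obtain ⟨C, j, hC, H⟩ := h k B κ hκ hκ8
  refine ⟨C, j, hC, ?_⟩
  intro m s r hs hr hri
  have hms : 0 ≤ ms m := Finset.sum_nonneg fun v _ => abs_nonneg _
  have hT : 1 ≤ 1 + |s.im| + ms m := by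
    have := abs_nonneg s.im
    linarith
  have ha : (0 : ℝ) < 10 * (1 + |s.im| + ms m) := by linarith
  have h1 : |r.im| ≤ r.re / (10 * (1 + |s.im| + ms m)) := by
    rw [le_div_iff₀ ha]
    unfold Pool.Agent.H89.CMC.Tm at hri
    linarith
  have h2 := H m s r hs hr h1
  have hn : r.re ≤ ‖r‖ := Complex.re_le_norm r
  have h3 : ‖r‖ ^ (-(1 / 2 + 2 * κ)) ≤ r.re ^ (-(1 / 2 + 2 * κ)) :=
    Real.rpow_le_rpow_of_nonpos hr hn (by linarith)
  have h4 : (1 + ‖r‖) ^ (-(B : ℝ)) ≤ (1 + r.re) ^ (-(B : ℝ)) := by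
    have := Nat.cast_nonneg (α := ℝ) B
    exact Real.rpow_le_rpow_of_nonpos (by linarith) (by linarith) (by linarith)
  have hcG : 0 ≤ cG m s.im := Finset.prod_nonneg fun v _ => norm_nonneg _
  have h7 : 0 ≤ ‖r‖ ^ (-(1 / 2 + 2 * κ)) := by positivity
  have h8 : 0 ≤ r.re ^ (-(1 / 2 + 2 * κ)) := by positivity
  have h9 : 0 ≤ C * (1 + |s.im| + ms m) ^ j * cG m s.im :=
    mul_nonneg (mul_nonneg hC (pow_nonneg (by linarith) j)) hcG
  have h10 : 0 ≤ (1 + ‖r‖) ^ (-(B : ℝ)) := by positivity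
  calc ‖Km m s r‖ ≤ C * (1 + |s.im| + ms m) ^ j * cG m s.im *
        (‖r‖ ^ (-(1 / 2 + 2 * κ)) * (1 + ‖r‖) ^ (-(B : ℝ))) := h2
    _ ≤ C * (1 + |s.im| + ms m) ^ j * cG m s.im *
        (r.re ^ (-(1 / 2 + 2 * κ)) * (1 + r.re) ^ (-(B : ℝ))) :=
        mul_le_mul_of_nonneg_left (mul_le_mul h3 h4 h10 h8) h9
    _ = C * Pool.Agent.H89.CMC.hm j m s * r.re ^ (-(1 / 2 + 2 * κ)) *
          (1 + r.re) ^ (-(B : ℝ)) := by
        unfold Pool.Agent.H89.CMC.hm Pool.Agent.H89.CMC.Tm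
        ring

theorem br_KCBm (h : T_KBU) (k : Type) [Field k] [NumberField k] :
    Pool.Agent.H89.CMC.T_KCBm k := by
  intro κ hκ hκ8
  obtain ⟨C, j, hC, H⟩ := br_KCBn h k 3 κ hκ hκ8
  refine ⟨C, j, hC, ?_⟩
  intro m s r hs hr hri
  have h1 := H m s r hs hr hri
  have h2 : (-((3 : ℕ) : ℝ)) = -(3 : ℝ) := by norm_num
  rw [h2] at h1
  exact h1

theorem br_KCDm (h : T_KDG) (hG : T_GMA) (k : Type) [Field k] [NumberField k] :
    Pool.Agent.H89.CMC.T_KCDm k := by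
  intro m s r hs hr _
  rw [abs_le] at hs
  have h1 := h (GM m) (hG k m) s (by linarith [hs.1]) (by linarith [hs.2])
  exact (h1 r (Or.inl hr)).differentiableAt (Complex.isOpen_slitPlane.mem_nhds (Or.inl hr))

theorem br_EZAm (h : T_EZ3) (hANG : T_ANG) (hEZA : Pool.Agent.H61.CM4.T_EZA) (k : Type) [Field k]
    [NumberField k] [IsTotallyReal k] : Pool.Agent.H89.CMC.T_EZAm k := by
  classical
  intro m M x y hM hy
  obtain ⟨hS, Φ, hΦ, -, hE, hD, -⟩ := h k m M x y hM hy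
  obtain ⟨hq, hqn, -, -⟩ := hEZA k M x y hM hy
  obtain ⟨-, hle, -⟩ := hANG k m x y hy
  refine ⟨?_, ?_⟩
  · refine hΦ.differentiableOn.congr ?_
    intro s hs
    exact hE s (by linarith [hs.1]) hs.2
  · intro s hs1 hs2
    have hix : (0 : ℝ) < ix M := by exact_mod_cast Nat.pos_of_ne_zero hM
    refine ⟨?_, ?_⟩
    · have h1 := ((hS s.re hs1).mul_right ((ix M : ℝ) ^ s.re))
      refine Summable.of_norm_bounded h1 ?_
      intro u
      by_cases hu : u ∈ M ∧ u ∈ Fo k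
      · have hu0 : u ≠ 0 := hu.2.1
        have e1 : (qn (fun v => (x v : ℂ)) (fun v => (y v : ℂ)) u / (ix M : ℂ)) =
            ((Pool.Agent.H61.CM4.qp x y u / ix M : ℝ) : ℂ) := by
          rw [hqn u]; push_cast; rfl
        rw [if_pos hu, if_pos hu, norm_mul, e1, Complex.norm_cpow_eq_rpow_re_of_pos
          (div_pos (hq u hu0) hix), Complex.neg_re, div_eq_mul_inv,
          Real.mul_rpow (hq u hu0).le (inv_nonneg.mpr hix.le), Real.inv_rpow hix.le,
          Real.rpow_neg hix.le, inv_inv]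
        refine mul_le_of_le_one_left ?_ (hle u)
        have h5 := hq u hu0
        positivity
      · rw [if_neg hu, if_neg hu]
        simp
    · rw [hE s (by linarith) hs2, hD s hs1]
      rfl

end Pool.Agent.H61.CMC
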