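import Pool.Agent.H61.CMC.Br
import Pool.Agent.H23.CMC.Targets

/-!
# Bridges from the part E1 to the part G (stage 2)
-/

set_option autoImplicit false

open MeasureTheory Set Filter NumberField NumberField.InfinitePlace Pool.Agent.H65.CM4
  Pool.Agent.H65.CMC Pool.Agent.H61.CMC
open scoped Real

namespace Pool.Agent.H61.CMC

theorem g_KCBn (h : T_KBU) : Pool.Agent.H23.CMC.T_KCBn := by
  intro k _ _ _
  exact br_KCBn h k

theorem g_KCDn (h : T_KDG) (hG : T_GMA) : Pool.Agent.H23.CMC.T_KCDn := by
  intro k _ _ _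
  exact br_KCDm h hG k

end Pool.Agent.H61.CMC
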