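import Pool.Agent.H65.CMC.Defs
import Pool.Agent.H61.CM4.TargetsB

/-!
# CMC (stage 2 of CM4), part E1: the kernel, the theta functions and the Epstein zeta functions with
an angular factor

Targets of the board `cm4_modules`, rows `E1_...` (captain helper61).
-/

set_option autoImplicit false

open MeasureTheory Set Filter NumberField NumberField.InfinitePlace NumberField.Units
  NumberField.Units.dirichletUnitTheorem
open scoped Real

namespace Pool.Agent.H61.CMC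

open Pool.Agent.H65.CM4 Pool.Agent.H65.CMC Pool.Agent.H25.HK Pool.Agent.H61.CM4

/-! ### The kernel of a factor `G` -/

/-- the admissible factors -/
def HG (G : ℂ → ℂ) : Prop :=
  (∀ w : ℂ, 0 < w.re → DifferentiableAt ℂ G w) ∧ ∀ R : ℝ, ∃ (C : ℝ) (j : ℕ), 0 ≤ C ∧
    ∀ w : ℂ, 0 < w.re → w.re ≤ R → ‖G w‖ ≤ C * (1 + |w.im|) ^ j

/-- the kernel of the factor `G` -/
noncomputable def KG (G : ℂ → ℂ) (s r : ℂ) : ℂ :=
  ((1 / (2 * π) : ℝ) : ℂ) * ∫ t : ℝ, G (2 + t * Complex.I) *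
    (Complex.exp ((2 + t * Complex.I - s) ^ 2) / (2 + t * Complex.I - s)) *
      r ^ (-(2 + t * Complex.I))

/-- (KSG) the line of integration. -/
def T_KSG : Prop :=
  ∀ (G : ℂ → ℂ), HG G → ∀ (s r : ℂ) (c : ℝ), -3 ≤ s.re → s.re < 2 → s.re < c → 0 < c →
    r ∈ Complex.slitPlane →
    Integrable (fun t : ℝ => G (c + t * Complex.I) *
      (Complex.exp ((c + t * Complex.I - s) ^ 2) / (c + t * Complex.I - s)) *
        r ^ (-(c + t * Complex.I))) ∧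
    KG G s r = ((1 / (2 * π) : ℝ) : ℂ) * ∫ t : ℝ, G (c + t * Complex.I) *
      (Complex.exp ((c + t * Complex.I - s) ^ 2) / (c + t * Complex.I - s)) *
        r ^ (-(c + t * Complex.I))

/-- (KDG) the kernel is holomorphic. -/
def T_KDG : Prop :=
  ∀ (G : ℂ → ℂ), HG G → ∀ s : ℂ, -3 ≤ s.re → s.re < 2 →
    DifferentiableOn ℂ (KG G s) Complex.slitPlane

/-- (SKG) sums of kernels. -/
def T_SKG : Prop :=
  ∀ (G : ℂ → ℂ), HG G → ∀ (s : ℂ) (ι : Type) (c : ι → ℂ) (a : ι → ℝ), -3 ≤ s.re → s.re < 2 →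
    (∀ i, ‖c i‖ ≤ 1) → (∀ i, 0 < a i) → Summable (fun i => (a i) ^ (-2 : ℝ)) →
    Summable (fun i => ‖c i * KG G s (a i)‖) ∧
    ∑' i, c i * KG G s (a i) = ((1 / (2 * π) : ℝ) : ℂ) * ∫ t : ℝ, G (2 + t * Complex.I) *
      (∑' i, c i * ((a i : ℝ) : ℂ) ^ (-(2 + t * Complex.I))) *
        (Complex.exp ((2 + t * Complex.I - s) ^ 2) / (2 + t * Complex.I - s))

/-! ### The Gamma function -/

/-- (GMO) monotonicity. -/
def T_GMO : Prop :=
  (∀ a t τ : ℝ, 0 < a → |t| ≤ |τ| →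
    ‖Complex.Gamma (a + τ * Complex.I)‖ ≤ ‖Complex.Gamma (a + t * Complex.I)‖) ∧
  ∀ x x' τ : ℝ, 0 < x → x ≤ x' →
    ‖Complex.Gamma (x + τ * Complex.I)‖ * Real.Gamma x' ≤
      ‖Complex.Gamma (x' + τ * Complex.I)‖ * Real.Gamma x

/-- (GQU) the change of the imaginary part, uniform in `M`. -/
def T_GQU : Prop :=
  ∀ (M : ℕ) (t τ : ℝ), ‖Complex.Gamma (1 / 2 + M + τ * Complex.I)‖ ≤
    Real.exp (π * |τ - t| / 2) * ‖Complex.Gamma (1 / 2 + M + t * Complex.I)‖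

/-- (GXX) the change of the real part, uniform in `M`. -/
def T_GXX : Prop :=
  ∀ R : ℝ, ∃ (C : ℝ) (N : ℕ), 0 < C ∧ ∀ (M : ℕ) (c τ : ℝ), 1 / 4 ≤ c → c ≤ R →
    ‖Complex.Gamma (c + M + τ * Complex.I)‖ ≤
      C * (1 + M + |τ|) ^ N * ‖Complex.Gamma (1 / 2 + M + τ * Complex.I)‖ ∧
    ‖Complex.Gamma (1 / 2 + M + τ * Complex.I)‖ ≤
      C * (1 + M + |τ|) ^ N * ‖Complex.Gamma (c + M + τ * Complex.I)‖

/-- (GMA) the Gamma factors are admissible. -/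
def T_GMA : Prop :=
  ∀ (k : Type) [Field k] [NumberField k] (m : Pl k → ℤ), HG (GM m)

/-- (GMU) the Gamma factors on vertical lines, uniform in `m`. -/
def T_GMU : Prop :=
  ∀ (k : Type) [Field k] [NumberField k] (R : ℝ), ∃ (C : ℝ) (j : ℕ), 0 < C ∧
    ∀ (m : Pl k → ℤ) (c t τ : ℝ), 1 / 4 ≤ c → c ≤ R →
      ‖GM m (c + τ * Complex.I)‖ ≤ C * (1 + |t| + ms m) ^ j *
        ((1 + |τ - t|) ^ j * Real.exp (π * Fintype.card (Pl k) * |τ - t| / 2)) * cG m t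

/-- (GML) the lower bound of the Gamma factors, uniform in `m`. -/
def T_GML : Prop :=
  ∀ (k : Type) [Field k] [NumberField k], ∃ (C : ℝ) (j : ℕ), 0 < C ∧
    ∀ (m : Pl k → ℤ) (s : ℂ), |s.re - 1 / 2| ≤ 1 / 8 →
      cG m s.im ≤ C * (1 + |s.im| + ms m) ^ j * ‖GM m s‖

/-- (KBU) the bound of the kernel, uniform in `m`. -/
def T_KBU : Prop :=
  ∀ (k : Type) [Field k] [NumberField k] (B : ℕ) (κ : ℝ), 0 < κ → κ ≤ 1 / 8 →
    ∃ (C : ℝ) (j : ℕ), 0 ≤ C ∧ ∀ (m : Pl k → ℤ) (s r : ℂ), |s.re - 1 / 2| ≤ κ → 0 < r.re →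
      |r.im| ≤ r.re / (10 * (1 + |s.im| + ms m)) →
      ‖Km m s r‖ ≤ C * (1 + |s.im| + ms m) ^ j * cG m s.im *
        (‖r‖ ^ (-(1 / 2 + 2 * κ)) * (1 + ‖r‖) ^ (-(B : ℝ)))

/-! ### Poisson summation with harmonic polynomials -/

section

variable {J : Type} [Fintype J]

/-- the values of the matrix `A` at the integral vectors -/
noncomputable def mv (A : Matrix (J × Fin 2) (J × Fin 2) ℝ) (n : J × Fin 2 → ℤ) : J × Fin 2 → ℝ :=
  A.mulVec (fun i => (n i : ℝ))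

/-- the complex coordinate of the index `v`, with the sign `e v` -/
noncomputable def zc (e : J → ℝ) (p : J × Fin 2 → ℝ) (v : J) : ℂ :=
  (p (v, 0) : ℂ) + Complex.I * ((e v * p (v, 1) : ℝ) : ℂ)

end

/-- (GAS) Gaussian sums converge. -/
def T_GAS : Prop :=
  ∀ (J : Type) [Fintype J] [DecidableEq J] (A : Matrix (J × Fin 2) (J × Fin 2) ℝ) (R : ℝ),
    A.det ≠ 0 →
    Summable (fun n : J × Fin 2 → ℤ =>
      Real.exp (-π * ∑ i, (mv A n i) ^ 2 + R * ∑ i, |mv A n i|))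

/-- (COE) comparison of coefficients. -/
def T_COE : Prop :=
  ∀ (X Y : Type) (a z : X → ℂ) (b w : Y → ℂ),
    (∀ R : ℝ, Summable (fun i => ‖a i‖ * Real.exp (R * ‖z i‖))) →
    (∀ R : ℝ, Summable (fun i => ‖b i‖ * Real.exp (R * ‖w i‖))) →
    (∀ μ : ℂ, ∑' i, a i * Complex.exp (μ * z i) = ∑' i, b i * Complex.exp (μ * w i)) →
    ∀ j : ℕ, ∑' i, a i * z i ^ j = ∑' i, b i * w i ^ j

/-- (PSE) Poisson summation for Gaussians with an isotropic linear term. -/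
def T_PSE : Prop :=
  ∀ (J : Type) [Fintype J] [DecidableEq J] (A : Matrix (J × Fin 2) (J × Fin 2) ℝ) (e : J → ℝ)
    (μ : J → ℂ), A.det ≠ 0 → (∀ v, e v = 1 ∨ e v = -1) →
    ∑' n : J × Fin 2 → ℤ, ((Real.exp (-π * ∑ i, (mv A n i) ^ 2) : ℝ) : ℂ) *
        Complex.exp (∑ v, μ v * zc e (mv A n) v) =
      ((|A.det|⁻¹ : ℝ) : ℂ) * ∑' n : J × Fin 2 → ℤ,
        ((Real.exp (-π * ∑ i, (mv (A⁻¹).transpose n i) ^ 2) : ℝ) : ℂ) *
          Complex.exp (∑ v, μ v * (-Complex.I * zc e (mv (A⁻¹).transpose n) v))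

/-- (PSM) Poisson summation for Gaussians with a harmonic polynomial. -/
def T_PSM : Prop :=
  ∀ (J : Type) [Fintype J] [DecidableEq J] (A : Matrix (J × Fin 2) (J × Fin 2) ℝ) (e : J → ℝ)
    (d : J → ℕ), A.det ≠ 0 → (∀ v, e v = 1 ∨ e v = -1) →
    ∑' n : J × Fin 2 → ℤ, ((Real.exp (-π * ∑ i, (mv A n i) ^ 2) : ℝ) : ℂ) *
        ∏ v, zc e (mv A n) v ^ d v =
      ((|A.det|⁻¹ : ℝ) : ℂ) * ∑' n : J × Fin 2 → ℤ,
        ((Real.exp (-π * ∑ i, (mv (A⁻¹).transpose n i) ^ 2) : ℝ) : ℂ) *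
          ∏ v, (-Complex.I * zc e (mv (A⁻¹).transpose n) v) ^ d v

/-! ### Theta functions with an angular factor -/

section

variable {k : Type} [Field k] [NumberField k] [IsTotallyReal k]

/-- the angular factor, real parameters -/
noncomputable def am (m : Pl k → ℤ) (x y : Pl k → ℝ) (u : V2 k) : ℂ :=
  an m (fun v => (x v : ℂ)) (fun v => (y v : ℂ)) u

/-- the polynomial factor -/
noncomputable def pq (d : Pl k → ℕ) (x y c : Pl k → ℝ) (u : V2 k) : ℝ :=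
  ∏ v : Pl k, (Real.exp (c v) * qr (x v) (y v) (rv v (u.1 : k)) (rv v (u.2 : k))) ^ d v

/-- the absolute value of the weight -/
def wa (m : Pl k → ℤ) : Pl k → ℕ := fun v => (m v).natAbs

open scoped Classical in
/-- the theta function of the weight `m` -/
noncomputable def th3 (m : Pl k → ℤ) (M : La k) (x y c : Pl k → ℝ) : ℂ :=
  ∑' u : V2 k, if u ∈ M then
    am m x y u * ((pq (wa m) x y c u * Real.exp (-(2 * π) * qs x y c u) : ℝ) : ℂ) else 0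

open scoped Classical in
/-- the theta function averaged over the units -/
noncomputable def f3 (m : Pl k → ℤ) (M : La k) (x y : Pl k → ℝ) (t : ℝ) : ℂ :=
  ∫ z in Fd k, th3 m M x y (yc k (Real.log t) z)

open scoped Classical in
/-- the constant term -/
noncomputable def c3 (m : Pl k → ℤ) : ℂ := if m = 0 then ((vF k : ℝ) : ℂ) else 0

open scoped Classical in
/-- the Dirichlet series of the lattice `M`, with the factor `a` -/
noncomputable def Zd3 (m : Pl k → ℤ) (M : La k) (x y : Pl k → ℝ) (a : ℝ) (s : ℂ) : ℂ :=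
  ∑' u : V2 k, if u ∈ M ∧ u ∈ Fo k then am m x y u * ((a * qp x y u : ℝ) : ℂ) ^ (-s) else 0

end

open scoped Classical in
/-- (ANG) the angular factor. -/
def T_ANG : Prop :=
  ∀ (k : Type) [Field k] [NumberField k] [IsTotallyReal k] (m : Pl k → ℤ) (x y : Pl k → ℝ),
    (∀ v, 0 < y v) →
    (∀ u : V2 k, u ≠ 0 → ‖am m x y u‖ = 1) ∧ (∀ u : V2 k, ‖am m x y u‖ ≤ 1) ∧
    (am m x y 0 = if m = 0 then 1 else 0) ∧
    (∀ (a : 𝓞 k) (u : V2 k), a ≠ 0 → am m x y (a • u) = am m x y u) ∧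
    ∀ (c : Pl k → ℝ) (u : V2 k), am m x y u * ((pq (wa m) x y c u : ℝ) : ℂ) =
      ∏ v, ((Real.exp (c v) / (2 * y v) : ℝ) : ℂ) ^ (m v).natAbs *
        (((rv v (u.1 : k) + rv v (u.2 : k) * x v : ℝ) : ℂ) + Complex.I *
          (((if 0 ≤ m v then 1 else -1) * (rv v (u.2 : k) * y v) : ℝ) : ℂ)) ^ (2 * (m v).natAbs)

/-- (PQB) the polynomial factor. -/
def T_PQB : Prop :=
  ∀ (k : Type) [Field k] [NumberField k] [IsTotallyReal k] (d : Pl k → ℕ),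
    ∃ C : ℝ, 0 ≤ C ∧ ∀ (x y c : Pl k → ℝ) (u : V2 k), (∀ v, 0 < y v) →
      0 ≤ pq d x y c u ∧ 0 ≤ qs x y c u ∧
      pq d x y c u * Real.exp (-(2 * π) * qs x y c u) ≤ C * Real.exp (-π * qs x y c u) ∧
      qs x y (fun v => c v - Real.log 2) u = qs x y c u / 2

open scoped Classical in
/-- (TH3) the theta inversion. -/
def T_TH3 : Prop :=
  ∀ (k : Type) [Field k] [NumberField k] [IsTotallyReal k] (m : Pl k → ℤ) (M : La k)
    (x y c : Pl k → ℝ), ix M ≠ 0 → (∀ v, 0 < y v) →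
    Summable (fun u : V2 k => if u ∈ M then
      pq (wa m) x y c u * Real.exp (-(2 * π) * qs x y c u) else 0) ∧
    th3 m M x y c = ((Real.exp (-∑ v, c v) / Dm M : ℝ) : ℂ) *
      th3 m (du M) x y (fun v => -c v - 2 * Real.log (Dm M))

open scoped Classical in
/-- (UI3) invariance under the units. -/
def T_UI3 : Prop :=
  ∀ (k : Type) [Field k] [NumberField k] [IsTotallyReal k] (m : Pl k → ℤ) (x y : Pl k → ℝ)
    (τ : ℝ) (z : logSpace k) (ε : (𝓞 k)ˣ), (∀ v, 0 < y v) →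
    (∀ u : V2 k, pq (wa m) x y (yc k τ (z + logEmbedding k (Additive.ofMul ε))) u =
      pq (wa m) x y (yc k τ z) ((ε : 𝓞 k) • u)) ∧
    ∀ M : La k, th3 m M x y (yc k τ (z + logEmbedding k (Additive.ofMul ε))) =
      th3 m M x y (yc k τ z)

/-- (CT3) continuity. -/
def T_CT3 : Prop :=
  ∀ (k : Type) [Field k] [NumberField k] [IsTotallyReal k] (m : Pl k → ℤ) (M : La k)
    (x y : Pl k → ℝ), (∀ v, 0 < y v) → Continuous (th3 m M x y)

open scoped Classical in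
/-- (DC3) decay. -/
def T_DC3 : Prop :=
  ∀ (k : Type) [Field k] [NumberField k] [IsTotallyReal k] (m : Pl k → ℤ) (M : La k)
    (x y : Pl k → ℝ), (∀ v, 0 < y v) → ∃ C c t₀ : ℝ, 0 < c ∧ 1 ≤ t₀ ∧ ∀ t : ℝ, t₀ ≤ t →
      ∀ z ∈ Fd k, ‖th3 m M x y (yc k (Real.log t) z) - (if m = 0 then 1 else 0)‖ ≤
        C * Real.exp (-c * t ^ ((2 : ℝ) / dg k))

/-- (WP3) the pair of functions for Mathlib's abstract functional equation. -/
def T_WP3 : Prop :=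
  ∀ (k : Type) [Field k] [NumberField k] [IsTotallyReal k] (m : Pl k → ℤ) (M : La k)
    (x y : Pl k → ℝ), ix M ≠ 0 → (∀ v, 0 < y v) → ∃ P : WeakFEPair ℂ,
      (∀ t, P.f t = f3 m M x y t) ∧
      (∀ t, P.g t = f3 m (du M) x y (((Dm M : ℝ) ^ dg k)⁻¹ * t)) ∧
      P.k = 2 ∧ P.ε = (((Dm M : ℝ)⁻¹ : ℝ) : ℂ) ∧ P.f₀ = c3 m ∧ P.g₀ = c3 m

open scoped Classical in
/-- (GI3) the Gamma integral. -/
def T_GI3 : Prop :=
  ∀ (k : Type) [Field k] [NumberField k] [IsTotallyReal k] (d : Pl k → ℕ) (q : Pl k → ℝ) (s : ℂ),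
    (∀ v, 0 < q v) → 0 < s.re →
    Integrable (fun p : ℝ × logSpace k =>
      (((∏ v, (Real.exp (yc k p.1 p.2 v) * q v) ^ d v) *
        Real.exp (-(2 * π) * ∑ v, Real.exp (yc k p.1 p.2 v) * q v) : ℝ) : ℂ) *
        Complex.exp (2 * s * p.1)) ∧
    ∫ p : ℝ × logSpace k, (((∏ v, (Real.exp (yc k p.1 p.2 v) * q v) ^ d v) *
        Real.exp (-(2 * π) * ∑ v, Real.exp (yc k p.1 p.2 v) * q v) : ℝ) : ℂ) *
        Complex.exp (2 * s * p.1) =
      ((2 : ℂ) ^ dg k)⁻¹ * (∏ v, (Complex.Gamma (s + d v) * (2 * (π : ℂ)) ^ (-(s + d v)))) *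
        ((∏ v, q v : ℝ) : ℂ) ^ (-s)

open scoped Classical in
/-- (ME3) the Mellin transform of the averaged theta function. -/
def T_ME3 : Prop :=
  ∀ (k : Type) [Field k] [NumberField k] [IsTotallyReal k] (m : Pl k → ℤ) (M : La k)
    (x y : Pl k → ℝ) (s : ℂ), ix M ≠ 0 → (∀ v, 0 < y v) → 1 < s.re →
    mellin (fun t => f3 m M x y t - c3 m) (2 * s) =
      2 * ((2 : ℂ) ^ dg k)⁻¹ *
        (∏ v, (Complex.Gamma (s + (wa m v : ℂ)) * (2 * (π : ℂ)) ^ (-(s + (wa m v : ℂ))))) *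
        Zd3 m M x y 1 s

/-- (PH3) the completed function. -/
def T_PH3 : Prop :=
  ∀ (k : Type) [Field k] [NumberField k] [IsTotallyReal k] (m : Pl k → ℤ) (M : La k)
    (x y : Pl k → ℝ), ix M ≠ 0 → (∀ v, 0 < y v) → ∃ Φ : ℂ → ℂ, Differentiable ℂ Φ ∧
      (∀ s : ℂ, 1 < s.re → Φ s = GM m s * Zd3 m M x y (ix M : ℝ)⁻¹ s) ∧
      (∀ s : ℂ, 1 < s.re → Φ (1 - s) = ((1 / dk k : ℝ) : ℂ) * (GM m s *
        Zd3 m (du M) x y ((ix M : ℝ) / (Dm M : ℝ) ^ (2 * dg k)) s)) ∧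
      ∀ b : ℝ, ∃ (C : ℝ) (j : ℕ), ∀ s : ℂ, |s.re| ≤ b → ‖Φ s‖ ≤ C * (1 + |s.im|) ^ j

open scoped Classical in
/-- (EZ3) the completed Epstein zeta function with the angular factor. -/
def T_EZ3 : Prop :=
  ∀ (k : Type) [Field k] [NumberField k] [IsTotallyReal k] (m : Pl k → ℤ) (M : La k)
    (x y : Pl k → ℝ), ix M ≠ 0 → (∀ v, 0 < y v) →
    (∀ σ : ℝ, 1 < σ → Summable (fun u : V2 k => if u ∈ M ∧ u ∈ Fo k then
      (qp x y u) ^ (-σ) else 0)) ∧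
    ∃ Φ : ℂ → ℂ, Differentiable ℂ Φ ∧
      (∀ b : ℝ, ∃ (C : ℝ) (j : ℕ), ∀ s : ℂ, |s.re| ≤ b → ‖Φ s‖ ≤ C * (1 + |s.im|) ^ j) ∧
      (∀ s : ℂ, -1 < s.re → s.re < 2 → Zm s m M x y = Φ s) ∧
      (∀ s : ℂ, 1 < s.re → Φ s = GM m s *
        ∑' u : V2 k, if u ∈ M ∧ u ∈ Fo k then am m x y u *
          (qn (fun v => (x v : ℂ)) (fun v => (y v : ℂ)) u / ix M) ^ (-s) else 0) ∧
      ∀ s : ℂ, 1 < s.re → Φ (1 - s) = ((1 / dk k : ℝ) : ℂ) * (GM m s *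
        ∑' u : V2 k, if u ∈ du M ∧ u ∈ Fo k then am m x y u *
          ((ix M : ℂ) * qn (fun v => (x v : ℂ)) (fun v => (y v : ℂ)) u /
            ((dk k * ix M : ℕ) : ℂ) ^ (2 * dg k)) ^ (-s) else 0)

end Pool.Agent.H61.CMC
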